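import Mathlib
import Pool.Agent.Run7.h97.FD.Set

set_option autoImplicit false

/-! # MP_6c466c_co: `‖α + 2·α‖ ≥ ‖α + α‖` fails, already for indicator functions of finite sets -/

namespace Pool.Agent.Results.MP_6c466c_co.DilateSmaller

open Finset

/-- A *fractional dilate*: a function `ℤ → [0,1]` with finite sum. -/
def IsFractionalDilate (α : ℤ → ℝ) : Prop := (∀ i, 0 ≤ α i) ∧ (∀ i, α i ≤ 1) ∧ Summable α

/-- `(α + c·α)(i)`: the sum of `α(j) α(k)` over all pairs of integers `(j,k)` with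
`j + c k = i`, in `[0,∞]`. -/
noncomputable def conv (c : ℤ) (α : ℤ → ℝ) (i : ℤ) : ENNReal :=
  ∑' x : ℤ × ℤ, if x.1 + c * x.2 = i then ENNReal.ofReal (α x.1 * α x.2) else 0

/-- `‖α + c·α‖`: the infimum over `0 < p < 1` of the sum over all integers `i` of
`(α + c·α)(i) ^ p`, in `[0,∞]`. -/
noncomputable def dnorm (c : ℤ) (α : ℤ → ℝ) : ENNReal :=
  ⨅ p : Set.Ioo (0 : ℝ) 1, ∑' i : ℤ, (conv c α i) ^ (p : ℝ)

/-- The set `A + c·A` of all `a + c b`, `a, b ∈ A`. -/
def sums (c : ℤ) (A : Finset ℤ) : Finset ℤ := (A ×ˢ A).image fun x => x.1 + c * x.2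

/-- The indicator function of a finite set. -/
def ind (A : Finset ℤ) (i : ℤ) : ℝ := if i ∈ A then 1 else 0

theorem isFractionalDilate_ind (A : Finset ℤ) : IsFractionalDilate (ind A) := by
  refine ⟨fun i => ?_, fun i => ?_, ?_⟩
  · unfold ind; split_ifs <;> norm_num
  · unfold ind; split_ifs <;> norm_num
  · exact summable_of_ne_finset_zero (s := A) (fun i hi => by rw [ind, if_neg hi])

theorem conv_ind (c : ℤ) (A : Finset ℤ) (i : ℤ) :
    conv c (ind A) i = (((A ×ˢ A).filter fun x => x.1 + c * x.2 = i).card : ENNReal) := by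
  unfold conv
  rw [tsum_eq_sum (s := A ×ˢ A)]
  · rw [card_filter]
    push_cast
    refine sum_congr rfl fun x hx => ?_
    rw [mem_product] at hx
    rw [ind, ind, if_pos hx.1, if_pos hx.2]
    simp
  · intro x hx
    rw [mem_product, not_and_or] at hx
    split_ifs with h
    · rcases hx with hx | hx
      · rw [ind, if_neg hx, zero_mul, ENNReal.ofReal_zero]
      · rw [show ind A x.2 = 0 by rw [ind, if_neg hx], mul_zero, ENNReal.ofReal_zero]
    · rfl

theorem conv_ind_zero (c : ℤ) (A : Finset ℤ) (i : ℤ) (hi : i ∉ sums c A) :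
    conv c (ind A) i = 0 := by
  rw [conv_ind, Nat.cast_eq_zero, card_eq_zero, filter_eq_empty_iff]
  intro x hx e
  exact hi (mem_image.2 ⟨x, hx, e⟩)

theorem one_le_conv_ind (c : ℤ) (A : Finset ℤ) (i : ℤ) (hi : i ∈ sums c A) :
    1 ≤ conv c (ind A) i := by
  rw [conv_ind, Nat.one_le_cast, Nat.one_le_iff_ne_zero, ← Nat.pos_iff_ne_zero, card_pos]
  obtain ⟨x, hx, e⟩ := mem_image.1 hi
  exact ⟨x, mem_filter.2 ⟨hx, e⟩⟩

theorem conv_ind_le (c : ℤ) (A : Finset ℤ) (i : ℤ) :
    conv c (ind A) i ≤ (((A ×ˢ A).card + 1 : ℕ) : ENNReal) := by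
  rw [conv_ind]
  have : ((A ×ˢ A).filter fun x => x.1 + c * x.2 = i).card ≤ (A ×ˢ A).card + 1 :=
    (card_filter_le _ _).trans (Nat.le_succ _)
  exact_mod_cast this

theorem tsum_ind (c : ℤ) (A : Finset ℤ) (p : ℝ) (hp : 0 < p) :
    ∑' i : ℤ, (conv c (ind A) i) ^ p = ∑ i ∈ sums c A, (conv c (ind A) i) ^ p := by
  rw [tsum_eq_sum (s := sums c A)]
  intro i hi
  rw [conv_ind_zero c A i hi, ENNReal.zero_rpow_of_pos hp]

/-- for the indicator function of a finite set `A`, `‖α + c·α‖ = |A + c·A|` -/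
theorem dnorm_ind (c : ℤ) (A : Finset ℤ) : dnorm c (ind A) = ((sums c A).card : ENNReal) := by
  refine le_antisymm ?_ (le_iInf fun p => ?_)
  · set M : ℝ := (((A ×ˢ A).card + 1 : ℕ) : ℝ) with hM
    have hM0 : 0 < M := by rw [hM]; positivity
    have hup : ∀ p : ℝ, 0 < p → p < 1 →
        dnorm c (ind A) ≤ ENNReal.ofReal (((sums c A).card : ℝ) * M ^ p) := by
      intro p hp hp1
      refine (iInf_le _ (⟨p, hp, hp1⟩ : Set.Ioo (0 : ℝ) 1)).trans ?_
      show ∑' i : ℤ, (conv c (ind A) i) ^ p ≤ _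
      rw [tsum_ind c A p hp]
      calc ∑ i ∈ sums c A, (conv c (ind A) i) ^ p
          ≤ ∑ i ∈ sums c A, ENNReal.ofReal (M ^ p) := by
            refine sum_le_sum fun i _ => ?_
            refine (ENNReal.rpow_le_rpow (conv_ind_le c A i) hp.le).trans (le_of_eq ?_)
            rw [← ENNReal.ofReal_rpow_of_pos hM0, hM, ENNReal.ofReal_natCast]
        _ = _ := by
            rw [sum_const, nsmul_eq_mul, ENNReal.ofReal_mul (by positivity),
              ENNReal.ofReal_natCast]
    have hlim : Filter.Tendsto (fun p : ℝ => ENNReal.ofReal (((sums c A).card : ℝ) * M ^ p))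
        (nhdsWithin 0 (Set.Ioi 0))
        (nhds (ENNReal.ofReal (((sums c A).card : ℝ) * M ^ (0 : ℝ)))) := by
      refine ENNReal.tendsto_ofReal ?_
      refine Filter.Tendsto.mono_left ?_ nhdsWithin_le_nhds
      exact ((Real.continuousAt_const_rpow hM0.ne').tendsto).const_mul _
    rw [Real.rpow_zero, mul_one, ENNReal.ofReal_natCast] at hlim
    refine ge_of_tendsto hlim ?_
    have h1 : ∀ᶠ p : ℝ in nhdsWithin 0 (Set.Ioi 0), p < 1 :=
      nhdsWithin_le_nhds (eventually_lt_nhds one_pos)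
    filter_upwards [h1, self_mem_nhdsWithin] with p hp1 hp0
    exact hup p hp0 hp1
  · rw [tsum_ind c A p p.2.1]
    calc ((sums c A).card : ENNReal) = ∑ i ∈ sums c A, (1 : ENNReal) := by simp
      _ ≤ _ := sum_le_sum fun i hi => ENNReal.one_le_rpow (one_le_conv_ind c A i hi) p.2.1

open Pool.Agent.R508.FD in
theorem sums_eq (c : ℤ) (A : Finset ℤ) : sums c A = sm c A := by
  unfold sums sm
  simp only [smul_eq_mul]

open Pool.Agent.R508.FD in
theorem sm_pi (n : ℕ) (k : ℤ) (T : Finset ℤ) :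
    sm k (Fintype.piFinset fun _ : Fin n => T) = Fintype.piFinset fun _ : Fin n => sm k T := by
  ext z
  rw [mem_sm, Fintype.mem_piFinset]
  constructor
  · rintro ⟨x, hx, y, hy, rfl⟩ i
    rw [Fintype.mem_piFinset] at hx hy
    exact (mem_sm k T _).2 ⟨x i, hx i, y i, hy i, rfl⟩
  · intro h
    have h2 : ∀ i, ∃ x ∈ T, ∃ y ∈ T, x + k • y = z i := fun i => (mem_sm k T _).1 (h i)
    choose x hx y hy hxy using h2
    exact ⟨x, Fintype.mem_piFinset.2 hx, y, Fintype.mem_piFinset.2 hy, funext hxy⟩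

open Pool.Agent.R508.FD in
/-- powers of a finite set -/
theorem exists_power (n : ℕ) (T : Finset ℤ) : ∃ A : Finset ℤ, A.card = T.card ^ n ∧
    (sums 1 A).card = (sums 1 T).card ^ n ∧ (sums 2 A).card = (sums 2 T).card ^ n := by
  classical
  set P : Finset (Fin n → ℤ) := Fintype.piFinset fun _ : Fin n => T with hP
  obtain ⟨φ, hφ⟩ := exists_inj n (P ∪ (sm 1 P ∪ sm 2 P))
  have hc : ∀ Q : Finset (Fin n → ℤ), Q ⊆ P ∪ (sm 1 P ∪ sm 2 P) →
      (Q.image φ).card = Q.card := fun Q hQ =>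
    Finset.card_image_of_injOn (hφ.mono (by exact_mod_cast hQ))
  refine ⟨P.image φ, ?_, ?_, ?_⟩
  · rw [hc P subset_union_left, hP, Fintype.card_piFinset_const]
  · rw [sums_eq, sums_eq, sm_image, hc (sm 1 P) (subset_union_left.trans subset_union_right), hP,
      sm_pi, Fintype.card_piFinset_const]
  · rw [sums_eq, sums_eq, sm_image, hc (sm 2 P) (subset_union_right.trans subset_union_right), hP,
      sm_pi, Fintype.card_piFinset_const]

/-- **Q1 is false**, already for indicator functions: there is a constant `δ > 0` such that for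
every `n` there is a finite set `A` of at least `n` integers whose indicator function `α` is a
fractional dilate with `‖α + α‖ = |A + A|`, `‖α + 2·α‖ = |A + 2·A|`,
`|A + 2·A| ≤ |A + A| ^ (1 - δ)` and `‖α + 2·α‖ < ‖α + α‖`. -/
theorem result : ∃ δ : ℝ, 0 < δ ∧ ∀ n : ℕ, ∃ A : Finset ℤ, n ≤ A.card ∧
    IsFractionalDilate (ind A) ∧
    dnorm 1 (ind A) = ((sums 1 A).card : ENNReal) ∧
    dnorm 2 (ind A) = ((sums 2 A).card : ENNReal) ∧
    ((sums 2 A).card : ℝ) ≤ ((sums 1 A).card : ℝ) ^ (1 - δ) ∧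
    dnorm 2 (ind A) < dnorm 1 (ind A) := by
  obtain ⟨T, hT, hlt⟩ := Run7.h97.FD.exists_sm
  rw [← sums_eq, ← sums_eq] at hlt
  have h2 : T.card ≤ (sums 2 T).card := by
    obtain ⟨t, ht⟩ : T.Nonempty := card_pos.1 (by omega)
    refine card_le_card_of_injOn (fun x => x + 2 * t) (fun x hx => ?_) (fun x _ y _ h => ?_)
    · exact mem_coe.2 (mem_image.2 ⟨(x, t), mem_product.2 ⟨mem_coe.1 hx, ht⟩, rfl⟩)
    · simpa using h
  set a : ℝ := ((sums 1 T).card : ℝ) with ha
  set b : ℝ := ((sums 2 T).card : ℝ) with hb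
  have hb2 : (2 : ℝ) ≤ b := by
    rw [hb]
    exact_mod_cast hT.trans h2
  have hba : b < a := by
    rw [ha, hb]
    exact_mod_cast hlt
  have hlb : 0 < Real.log b := Real.log_pos (by linarith)
  have hla : Real.log b < Real.log a := Real.log_lt_log (by linarith) hba
  refine ⟨1 - Real.log b / Real.log a, ?_, fun n => ?_⟩
  · have : Real.log b / Real.log a < 1 := (div_lt_one (hlb.trans hla)).2 hla
    linarith
  · obtain ⟨A, hA, hA1, hA2⟩ := exists_power (n + 1) T
    have hn : n < T.card ^ (n + 1) :=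
      (Nat.lt_succ_self n).trans (Nat.lt_pow_self (by omega))
    refine ⟨A, by omega, isFractionalDilate_ind A, dnorm_ind 1 A, dnorm_ind 2 A, ?_, ?_⟩
    · rw [hA1, hA2]
      push_cast
      rw [← ha, ← hb]
      have hbe : b = a ^ (1 - (1 - Real.log b / Real.log a)) := by
        rw [sub_sub_cancel, Real.rpow_def_of_pos (by linarith),
          mul_div_cancel₀ _ (hlb.trans hla).ne', Real.exp_log (by linarith)]
      calc b ^ (n + 1) = (a ^ (1 - (1 - Real.log b / Real.log a))) ^ (n + 1) := by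
            rw [← hbe]
        _ ≤ _ := by
            rw [← Real.rpow_natCast, ← Real.rpow_natCast, ← Real.rpow_mul (by linarith),
              ← Real.rpow_mul (by linarith), mul_comm]
    · rw [dnorm_ind, dnorm_ind, hA1, hA2, Nat.cast_lt]
      exact Nat.pow_lt_pow_left hlt (by omega)

end Pool.Agent.Results.MP_6c466c_co.DilateSmaller
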